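import Pool.Agent.K7.H96.FM.FINAL
import Pool.Agent.K7.H96.FM.COUNT
import Pool.Agent.K7.H96.FM.FRAC
import Pool.Agent.K7.H96.FM.BIN
import Pool.Agent.K7.H96.FM.NUM
import Pool.Agent.K7.H96.FM.ROOT
import Pool.Agent.K7.H96.FM.STATUS
import Pool.Agent.K7.H96.FM.STAB
import Pool.Agent.K7.H96.FM.MARG
import Pool.Agent.K7.H96.FM.G01
import Pool.Agent.K7.H96.FM.G2A
import Pool.Agent.K7.H96.FM.G2C

/-!
# Fractional majority colourings of digraphs of total weight 3.85

Every finite digraph has a fractional majority colouring of total weight at most `77/20 = 3.85`, so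
`k* ≤ 3.85` (the trivial bound is `4`; Anastos, Lamaison, Steiner and Szabó proved `3.9602`).

Proof. By a probability distribution on the stable sets it is enough to have a random stable set
which contains each vertex with probability at least `20/77`. Let `R` be the set of all the vertices
of out-degree different from `1` and of one vertex of each cycle of vertices of out-degree `1`; the
other vertices `v` have one out-neighbour `f(v)`, and the path `v, f(v), f(f(v)), ...` reaches `R`.
A vertex of `R` is chosen with probability `0.42`; a vertex `v` outside of `R` is chosen, if `f(v)`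
is not chosen, with probability `0.448` if `f(v)` is in `R` and `0.352` if it is not. At the end the
chosen vertices of `R` with more than half of their out-neighbours chosen are deleted. The vertices
outside of `R` are in the set with probability `≥ 0.2598`. For a vertex `v` of `R` one must bound the
correlations between its out-neighbours: they are dominated by independent ones with probability
`0.42`, except for those with `f(w)` in `R`, where `0.448` is needed; but if there is such a `w`,
then with probability `0.42` the vertex `f(w)` is chosen and `w` is not.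
-/

set_option autoImplicit false

open Finset

namespace Pool.Agent.Results.MP_e99367_co.FractionalMajority

open Classical in
/-- the out-neighbours of `v` in the digraph with the arcs `v → u`, `adj v u` -/
noncomputable def outN {V : Type} [Fintype V] (adj : V → V → Prop) (v : V) : Finset V :=
  Finset.univ.filter (fun u => adj v u)

/-- `T` is stable: each `v ∈ T` has at most half of its out-neighbours in `T` -/
def IsStable {V : Type} [Fintype V] [DecidableEq V] (adj : V → V → Prop) (T : Finset V) : Prop :=
  ∀ v ∈ T, (((outN adj v) ∩ T).card : ℝ) ≤ 1 / 2 * ((outN adj v).card : ℝ)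

/-- `x` is a fractional majority colouring: nonnegative weights on the stable sets such that the
stable sets which contain `v` have total weight at least `1`, for every vertex `v` -/
structure IsFracMajorityColouring {V : Type} [Fintype V] [DecidableEq V] (adj : V → V → Prop)
    (x : Finset V → ℝ) : Prop where
  nonneg : ∀ T, 0 ≤ x T
  stable : ∀ T, x T ≠ 0 → IsStable adj T
  cover : ∀ v, 1 ≤ ∑ T ∈ univ.filter (fun T : Finset V => v ∈ T), x T

/-- `k*`: the infimum of the `k` such that every finite digraph (no loops, no parallel arcs; opposite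
arcs allowed) has a fractional majority colouring of total weight at most `k` -/
noncomputable def kStar : ℝ :=
  sInf {k : ℝ | ∀ (n : ℕ) (adj : Fin n → Fin n → Prop), (∀ v, ¬ adj v v) →
    ∃ x : Finset (Fin n) → ℝ, IsFracMajorityColouring adj x ∧ ∑ T : Finset (Fin n), x T ≤ k}

theorem main (V : Type) [Fintype V] [DecidableEq V] (adj : V → V → Prop)
    (hl : ∀ v, ¬ adj v v) :
    ∃ x : Finset V → ℝ, IsFracMajorityColouring adj x ∧ ∑ T : Finset V, x T ≤ 77 / 20 := by
  have hc := Pool.Agent.K7.H96.FM.stCount
  have hb := Pool.Agent.K7.H96.FM.stBin hc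
  have hn := Pool.Agent.K7.H96.FM.stNum
  have h := Pool.Agent.K7.H96.FM.stMain Pool.Agent.K7.H96.FM.stFrac
    Pool.Agent.K7.H96.FM.stRoot Pool.Agent.K7.H96.FM.stStatus Pool.Agent.K7.H96.FM.stStab
    (Pool.Agent.K7.H96.FM.stMarg hc) (Pool.Agent.K7.H96.FM.stG01 hc)
    (Pool.Agent.K7.H96.FM.stG2 hc (Pool.Agent.K7.H96.FM.stG2A hc hb hn)
      (Pool.Agent.K7.H96.FM.stG2B hc hb hn) (Pool.Agent.K7.H96.FM.stG2C hc hb hn))
  obtain ⟨x, h1, h2, h3, h4⟩ := h V adj hl
  refine ⟨x, ⟨h1, ?_, h3⟩, h4⟩
  intro T hT v hv
  by_contra hcon
  apply hT
  apply h2 T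
  intro hst
  have := hst v hv
  apply hcon
  have e : (2 : ℝ) * (((Pool.Agent.K7.H96.FM.outN adj v) ∩ T).card : ℝ) ≤
      ((Pool.Agent.K7.H96.FM.outN adj v).card : ℝ) := by exact_mod_cast this
  have e2 : (2 : ℝ) * (((outN adj v) ∩ T).card : ℝ) ≤ ((outN adj v).card : ℝ) := e
  linarith

/-- **Every digraph has a fractional majority colouring of total weight at most `3.85`**; hence
`k* ≤ 3.85`. -/
theorem result :
    (∀ (V : Type) [Fintype V] [DecidableEq V] (adj : V → V → Prop), (∀ v, ¬ adj v v) →
      ∃ x : Finset V → ℝ, IsFracMajorityColouring adj x ∧ ∑ T : Finset V, x T ≤ 77 / 20) ∧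
    kStar ≤ 77 / 20 := by
  refine ⟨fun V _ _ adj hl => main V adj hl, ?_⟩
  refine csInf_le ⟨0, ?_⟩ (fun n adj hl => main (Fin n) adj hl)
  intro k hk
  obtain ⟨x, hx, hs⟩ := hk 0 (fun _ _ => False) (fun _ h => h)
  exact le_trans (Finset.sum_nonneg fun T _ => hx.nonneg T) hs

end Pool.Agent.Results.MP_e99367_co.FractionalMajority
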